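import Pool.Agent.Helper53.UV.Par
import Pool.Agent.Helper56.BR.LSP
import Pool.Agent.Helper14.BR.RUNC

/-!
# PROJECT UR2, packet VMC: comparison of `vm P ty G` with `P.mach`
-/

namespace Pool.Agent.Helper52.UV

open Pool.Agent.Helper65.LinSpace Pool.Agent.Helper78.Mpc
open Pool.Agent.Helper65.BR (Prm)
open Pool.Agent.Helper53.UV
open Pool.Agent.Helper56.BR (ifz_z ifz_n ifz_lt nxN_lt sil_lt sil_succ)
open Pool.Agent.Helper14.BR (capN_of_lt)

theorem fnN_z (e S Λ β B : ℕ) : fnN e S Λ β B 0 = 0 := rfl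

theorem accN_z : accN 0 = 0 := rfl

theorem capN_z (S : ℕ) : capN S 0 = 0 := capN_of_lt (by positivity)

section

variable (P : Prm)

theorem adN_z : P.adN 0 = 0 := rfl

theorem rdg_z : P.rdg 0 = 0 := rfl

theorem nxN_z (v : ℕ) : P.nxN 0 v = 0 := by
  unfold Prm.nxN
  rw [accN_z, ifz_z, adN_z, ifz_z]

theorem sil_z (i : ℕ) : P.sil 0 i = 0 := by
  induction i with
  | zero => rfl
  | succ i ih =>
    rw [sil_succ, ih, nxN_z]
    by_cases h : P.stop 0 = 0
    · rw [h, ifz_z]
    · rw [ifz_n h]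

/-- The new state does not depend on the content if nothing is read. -/
theorem nxN_rdg {q : ℕ} (h : P.rdg q = 0) (v w : ℕ) : P.nxN q v = P.nxN q w := by
  unfold Prm.nxN
  rw [h, ifz_z, ifz_z]

theorem nxN_acc {q : ℕ} (h : accN q ≠ 0) (v : ℕ) : P.nxN q v = capN P.S q := by
  unfold Prm.nxN
  rw [ifz_n h]

theorem catN_z (a : ℕ) : catN a 0 = 0 := by
  unfold catN
  by_cases h : a = 0
  · rw [h, ifz_z]
  · rw [ifz_n h, ifz_z]

theorem inN_z (q : ℕ) : P.inN q 0 = 0 := by
  unfold Prm.inN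
  rw [catN_z, catN_z, catN_z]

theorem nxN_zero {q : ℕ} (h : P.rdg q ≠ 0) (ha : accN q = 0) : P.nxN q 0 = 0 := by
  unfold Prm.nxN
  rw [ha, ifz_z, ifz_n h, inN_z, fnN_z]
  by_cases h1 : P.adN q = 0
  · rw [h1, ifz_z]
  · rw [ifz_n h1]
    by_cases h2 : P.blN q = 0
    · rw [h2, ifz_z]
    · rw [ifz_n h2]

/-- If the high part does not change, the new state is the right one. -/
theorem nxV_eq {ty G q c : ℕ} (hty : ty ≠ 0) (hr : P.rdg q ≠ 0)
    (h : P.nxN q c / 2 ^ G = q / 2 ^ G) : nxV P ty G q (rdV P ty G q c) = P.nxN q c := by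
  have e1 : rdV P ty G q c = P.nxN q c % 2 ^ G + 1 := by
    unfold rdV
    rw [ifz_n hty, ifz_n hr]
    unfold eq01
    rw [if_pos h, ifz_n one_ne_zero]
  rw [e1]
  unfold nxV
  rw [ifz_n hty, ifz_n hr, ifz_n (Nat.succ_ne_zero _), Nat.add_sub_cancel, ← h,
    Nat.div_add_mod', capN_of_lt (nxN_lt P q c)]

theorem nxV_ne {ty G q c : ℕ} (hty : ty ≠ 0) (hr : P.rdg q ≠ 0)
    (h : P.nxN q c / 2 ^ G ≠ q / 2 ^ G) : nxV P ty G q (rdV P ty G q c) = 0 := by
  have e1 : rdV P ty G q c = 0 := by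
    unfold rdV
    rw [ifz_n hty, ifz_n hr]
    unfold eq01
    rw [if_neg h, ifz_z]
  rw [e1]
  unfold nxV
  rw [ifz_n hty, ifz_n hr, ifz_z, capN_z]

theorem nxV_or (ty G q c : ℕ) : nxV P ty G q (rdV P ty G q c) = P.nxN q c ∨
    nxV P ty G q (rdV P ty G q c) = 0 := by
  by_cases hty : ty = 0
  · have e : nxV P ty G q (rdV P ty G q c) = P.nxN q (capN G c) := by
      unfold nxV rdV
      rw [hty, ifz_z, ifz_z]
    rw [e]
    by_cases h0 : capN G c = 0
    · rw [h0]
      by_cases hr : P.rdg q = 0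
      · exact Or.inl (nxN_rdg P hr _ _)
      · by_cases ha : accN q = 0
        · exact Or.inr (nxN_zero P hr ha)
        · exact Or.inl (by rw [nxN_acc P ha, nxN_acc P ha])
    · rw [capN_ne h0]
      exact Or.inl rfl
  · by_cases hr : P.rdg q = 0
    · left
      unfold nxV
      rw [ifz_n hty, hr, ifz_z]
      exact nxN_rdg P hr _ _
    · by_cases h : P.nxN q c / 2 ^ G = q / 2 ^ G
      · exact Or.inl (nxV_eq P hty hr h)
      · exact Or.inr (nxV_ne P hty hr h)

theorem nxV_cmp {ty G q c : ℕ} (hq : q < 2 ^ (P.S + 1))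
    (h : P.rdg q ≠ 0 → accN q = 0 → (ty = 0 → capN G c = c) ∧
      (ty ≠ 0 → P.nxN q c / 2 ^ G = q / 2 ^ G)) :
    nxV P ty G q (rdV P ty G q c) = P.nxN q c := by
  by_cases hty : ty = 0
  · have e : nxV P ty G q (rdV P ty G q c) = P.nxN q (capN G c) := by
      unfold nxV rdV
      rw [hty, ifz_z, ifz_z]
    rw [e]
    by_cases hr : P.rdg q = 0
    · exact nxN_rdg P hr _ _
    · by_cases ha : accN q = 0
      · rw [(h hr ha).1 hty]
      · rw [nxN_acc P ha, nxN_acc P ha]
  · by_cases hr : P.rdg q = 0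
    · unfold nxV
      rw [ifz_n hty, hr, ifz_z]
      exact nxN_rdg P hr _ _
    · refine nxV_eq P hty hr ?_
      by_cases ha : accN q = 0
      · exact (h hr ha).2 hty
      · rw [nxN_acc P ha, capN_of_lt hq]

theorem mach_lt (k : ℕ) : (P.mach.conf k).1 < 2 ^ (P.S + 1) := by
  cases k with
  | zero => exact sil_lt P (Pool.Agent.Helper56.BR.fnN_lt _ _ _ _ _ _) P.T
  | succ k => exact sil_lt P (nxN_lt P _ _) P.T

theorem step_eq (ty G k : ℕ) (hk : (vm P ty G).conf k = P.mach.conf k)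
    (h : nxV P ty G (P.mach.conf k).1 (rdV P ty G (P.mach.conf k).1
      ((P.mach.conf k).2 (P.rdN (P.mach.conf k).1))) =
      P.nxN (P.mach.conf k).1 ((P.mach.conf k).2 (P.rdN (P.mach.conf k).1))) :
    (vm P ty G).conf (k + 1) = P.mach.conf (k + 1) := by
  have e1 : (vm P ty G).conf (k + 1) =
      (P.sil (nxV P ty G ((vm P ty G).conf k).1 (rdV P ty G ((vm P ty G).conf k).1
        (((vm P ty G).conf k).2 (P.rdN ((vm P ty G).conf k).1)))) P.T, fun x =>
      capN P.H (P.wil (nxV P ty G ((vm P ty G).conf k).1 (rdV P ty G ((vm P ty G).conf k).1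
        (((vm P ty G).conf k).2 (P.rdN ((vm P ty G).conf k).1)))) x
        (ifz (accN ((vm P ty G).conf k).1) (P.wrN (nxV P ty G ((vm P ty G).conf k).1
          (rdV P ty G ((vm P ty G).conf k).1
        (((vm P ty G).conf k).2 (P.rdN ((vm P ty G).conf k).1)))) x
          (((vm P ty G).conf k).2 x)) (((vm P ty G).conf k).2 x)) P.T)) := rfl
  rw [e1, hk, h]
  rfl

theorem ok (ty G : ℕ) (h : P.mach.Ok) : (vm P ty G).Ok where
  hA := h.hA
  hR q c := by
    show rdV P ty G q c < 2 ^ (G + 1)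
    unfold rdV
    refine ifz_lt (capN_lt _ _) (ifz_lt (by positivity) (ifz_lt (by positivity) ?_))
    have h1 : P.nxN q c % 2 ^ G < 2 ^ G := Nat.mod_lt _ (by positivity)
    have h2 : 0 < 2 ^ G := by positivity
    rw [pow_succ]
    omega
  hN q v := by
    refine sil_lt P ?_ P.T
    unfold nxV
    exact ifz_lt (nxN_lt P _ _) (ifz_lt (nxN_lt P _ _) (capN_lt _ _))
  hW q v x c := capN_lt _ _
  hq0 := h.hq0
  hM0 := h.hM0

end

theorem gVMC : GoalVMC where
  ok P ty G h := ok P ty G h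
  snd P ty G k := by
    induction k with
    | zero => exact Or.inl rfl
    | succ k ih =>
      rcases ih with ih | ih
      · rcases nxV_or P ty G (P.mach.conf k).1 ((P.mach.conf k).2 (P.rdN (P.mach.conf k).1))
          with h | h
        · exact Or.inl (step_eq P ty G k ih h)
        · right
          have e1 : ((vm P ty G).conf (k + 1)).1 =
            P.sil (nxV P ty G ((vm P ty G).conf k).1 (rdV P ty G ((vm P ty G).conf k).1
              (((vm P ty G).conf k).2 (P.rdN ((vm P ty G).conf k).1)))) P.T := rfl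
          rw [e1, ih, h, sil_z]
      · right
        have e1 : ((vm P ty G).conf (k + 1)).1 =
          P.sil (nxV P ty G ((vm P ty G).conf k).1 (rdV P ty G ((vm P ty G).conf k).1
            (((vm P ty G).conf k).2 (P.rdN ((vm P ty G).conf k).1)))) P.T := rfl
        rw [e1, ih]
        have h0 : nxV P ty G 0 (rdV P ty G 0 (((vm P ty G).conf k).2 (P.rdN 0))) = 0 := by
          rcases nxV_or P ty G 0 (((vm P ty G).conf k).2 (P.rdN 0)) with h | h
          · rw [h, nxN_z]
          · exact h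
        rw [h0, sil_z]
  cmp P ty G k := by
    induction k with
    | zero => exact fun _ => rfl
    | succ k ih =>
      intro h
      have hk := ih fun j hj => h j (by omega)
      exact step_eq P ty G k hk (nxV_cmp P (mach_lt P k) (h k (Nat.lt_succ_self k)))

end Pool.Agent.Helper52.UV
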